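import Mathlib

/-!
# Subgroups of `H` as stabilisers of linear characters in the regular wreath product `D ≀ᵣ H`

Let `ι : G → H` be an embedding of finite groups and `χ` a nontrivial linear character of the finite
group `D`. The function `f ↦ ∏ g : G, χ (f (ι g))` is a linear character of the base group of `D ≀ᵣ H`.
It extends to the preimage `T` of `ι G`, and `T` is its stabiliser.
-/

set_option autoImplicit false

open scoped BigOperators

noncomputable section

namespace Pool.Agent.H9.RW

variable {D G H : Type} [Group D] [Group G] [Group H] (ι : G →* H)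

/-- The preimage of `ι G` in the wreath product. -/
def T (D : Type) [Group D] (ι : G →* H) : Subgroup (D ≀ᵣ H) :=
  ι.range.comap RegularWreathProduct.rightHom

theorem mem_T {w : D ≀ᵣ H} : w ∈ T D ι ↔ w.right ∈ ι.range := Iff.rfl

variable {ι} (hι : Function.Injective ι)

/-- The projection of the preimage of `ι G` onto `G`. -/
def pr : T D ι →* G :=
  ((MonoidHom.ofInjective hι).symm : ι.range →* G).comp
    ((RegularWreathProduct.rightHom.comp (T D ι).subtype).codRestrict ι.range fun t => t.2)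

theorem iota_pr (t : T D ι) : ι (pr hι t) = t.1.right := by
  have h : (MonoidHom.ofInjective hι) (pr hι t) =
      (RegularWreathProduct.rightHom.comp (T D ι).subtype).codRestrict ι.range (fun t => t.2) t := by
    simp only [pr, MonoidHom.comp_apply]
    exact (MonoidHom.ofInjective hι).apply_symm_apply _
  exact congrArg Subtype.val h

theorem pr_eq_one {t : T D ι} : pr hι t = 1 ↔ t.1.right = 1 := by
  rw [← iota_pr hι t, ← map_one ι, hι.eq_iff]

/-- The complement. -/
def sec (D : Type) [Group D] (ι : G →* H) : G →* T D ι :=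
  (RegularWreathProduct.inl.comp ι).codRestrict (T D ι) fun g => ⟨g, rfl⟩

theorem pr_sec (g : G) : pr hι (sec D ι g) = g := hι (iota_pr hι _)

/-- The kernel is the base group. -/
def kerEquiv : (pr (D := D) hι).ker ≃ (H → D) where
  toFun t := t.1.1.left
  invFun f := ⟨⟨⟨f, 1⟩, ι.range.one_mem⟩, (pr_eq_one hι).2 rfl⟩
  left_inv t := by
    have h : t.1.1.right = 1 := (pr_eq_one hι).1 t.2
    apply Subtype.ext
    apply Subtype.ext
    exact RegularWreathProduct.ext rfl h.symm
  right_inv f := rfl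

theorem card_ker [Finite H] {p : ℕ} [hp : Fact p.Prime] (hD : ¬ p ∣ Nat.card D) :
    ¬ p ∣ Nat.card (pr (D := D) hι).ker := by
  rw [Nat.card_congr (kerEquiv hι), Nat.card_fun]
  exact fun h => hD (hp.out.dvd_of_dvd_pow h)

theorem conj_right (x k : D ≀ᵣ H) (hk : k.right = 1) : (x⁻¹ * k * x).right = 1 := by
  simp [hk]

theorem conj_left (x k : D ≀ᵣ H) (hk : k.right = 1) (y : H) :
    (x⁻¹ * k * x).left y = (x.left (x.right * y))⁻¹ * k.left (x.right * y) * x.left (x.right * y) := by
  simp [hk, mul_assoc]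

theorem normal (x : D ≀ᵣ H) (k : T D ι) (hk : pr hι k = 1) :
    ∃ k' : T D ι, pr hι k' = 1 ∧ (T D ι).subtype k' = x⁻¹ * (T D ι).subtype k * x := by
  have h := conj_right x k.1 ((pr_eq_one hι).1 hk)
  refine ⟨⟨x⁻¹ * k.1 * x, ?_⟩, (pr_eq_one hι).2 h, rfl⟩
  rw [mem_T, h]
  exact ι.range.one_mem

/-- The linear character. -/
def Lam [Fintype G] (χ : D →* ℂ) : T D ι →* ℂ where
  toFun t := ∏ g : G, χ (t.1.left (ι g))
  map_one' := by simp
  map_mul' s t := by
    have h : ∀ g, (s * t).1.left (ι g) = s.1.left (ι g) * t.1.left (ι ((pr hι s)⁻¹ * g)) := by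
      intro g
      simp only [Subgroup.coe_mul, RegularWreathProduct.mul_left, Pi.mul_apply, map_mul, map_inv,
        iota_pr]
    simp only [h, map_mul, Finset.prod_mul_distrib]
    congr 1
    exact Fintype.prod_equiv (Equiv.mulLeft (pr hι s)⁻¹) _ _ fun g => by
      rw [Equiv.coe_mulLeft, map_mul, map_inv]

theorem Lam_apply [Fintype G] (χ : D →* ℂ) (t : T D ι) :
    Lam hι χ t = ∏ g : G, χ (t.1.left (ι g)) := rfl

theorem moves [Fintype G] (χ : D →* ℂ) {d : D} (hd : χ d ≠ 1) (x : D ≀ᵣ H)
    (hx : x ∉ (T D ι).subtype.range) :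
    ∃ k k' : T D ι, pr hι k = 1 ∧ pr hι k' = 1 ∧
      (T D ι).subtype k' = x⁻¹ * (T D ι).subtype k * x ∧ Lam hι χ k ≠ Lam hι χ k' := by
  classical
  rw [Subgroup.range_subtype, mem_T] at hx
  let k : T D ι := ⟨⟨Pi.mulSingle 1 d, 1⟩, ι.range.one_mem⟩
  have hk : pr hι k = 1 := (pr_eq_one hι).2 rfl
  obtain ⟨k', h1, h2⟩ := normal hι x k hk
  refine ⟨k, k', hk, h1, h2, ?_⟩
  have h3 : Lam hι χ k = χ d := by
    rw [Lam_apply, Finset.prod_eq_single 1]
    · simp [k]
    · intro g _ hg
      have : ι g ≠ 1 := fun h => hg (hι (h.trans (map_one ι).symm))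
      simp [k, Pi.mulSingle_eq_of_ne this]
    · intro h
      exact absurd (Finset.mem_univ _) h
  have h4 : Lam hι χ k' = 1 := by
    rw [Lam_apply]
    apply Finset.prod_eq_one
    intro g _
    have h5 : k'.1 = x⁻¹ * k.1 * x := h2
    have h6 : x.right * ι g ≠ 1 := fun h => hx ⟨g⁻¹, by
      rw [map_inv]
      exact (eq_inv_of_mul_eq_one_left h).symm⟩
    rw [h5, conj_left x k.1 rfl]
    simp [k, Pi.mulSingle_eq_of_ne h6]
  rw [h3, h4]
  exact hd

/-- A finite group which is not perfect has a nontrivial linear character. -/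
theorem exists_char (D : Type) [Group D] [Finite D] (hD : commutator D ≠ ⊤) :
    ∃ (χ : D →* ℂ) (d : D), χ d ≠ 1 := by
  obtain ⟨d, hd⟩ : ∃ d : D, d ∉ commutator D := by
    by_contra h
    push Not at h
    exact hD ((Subgroup.eq_top_iff' _).2 h)
  have h1 : (Abelianization.of d : Abelianization D) ≠ 1 := by
    intro h
    exact hd ((QuotientGroup.eq_one_iff d).1 h)
  obtain ⟨φ, hφ⟩ := CommGroup.exists_apply_ne_one_of_hasEnoughRootsOfUnity (Abelianization D) ℂ h1
  refine ⟨((Units.coeHom ℂ).comp φ).comp Abelianization.of, d, fun h => hφ ?_⟩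
  exact Units.ext h

/-- Every finite group is a subgroup of the symmetric groups of large degree. -/
theorem exists_perm (G : Type) [Group G] [Finite G] (n : ℕ) (hn : Nat.card G ≤ n) :
    ∃ ι : G →* Equiv.Perm (Fin n), Function.Injective ι := by
  have e : G ≃ Fin (Nat.card G) := Finite.equivFin G
  let f : G ↪ Fin n := e.toEmbedding.trans (Fin.castLEEmb hn)
  exact ⟨(Equiv.Perm.viaEmbeddingHom f).comp (MulAction.toPermHom G G),
    (Equiv.Perm.viaEmbeddingHom_injective f).comp MulAction.toPerm_injective⟩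

end Pool.Agent.H9.RW
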